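import Pool.Agent.MWGQ.Stmts
import Pool.Agent.Helper23_MWGN.TLR

/-!
MWGQ, row TLR: position of a letter relative to a light letter (period `n`).
-/

namespace Pool.Agent.MWGQ.H37

open Pool.Agent.Helper14_MV Pool.Agent.Helper2_MV
open Pool.Agent.MWK (pre)
open Pool.Agent.MWGN (Nm WC WT Tau Ns nl sg nn N1 N2 K0 Kb Kc T2)
open Pool.Agent.MWGN.H23 (st3 st4)

/-- **TLR**. -/
theorem tlr (h1 : OlrStmt) (h2 : TlwStmt) (h3 : CntStmt) : TlrStmt := by
  intro n β hG hE hP w w' hR c z s hs hc2 hz2 hzs1 hcs1
  have sim : ∀ d, w.count d = 1 → w'.count d = 1 := by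
    intro d hd
    have := (h3 n β hG w w' hR d).1 (by omega)
    omega
  have cnt : ∀ d, 2 ≤ w.count d → 2 ≤ w'.count d := fun d hd => (h3 n β hG w w' hR d).2.1 hd
  have hcs : c ≠ s := by rintro rfl; omega
  have hzs : z ≠ s := by rintro rfl; omega
  have hcz : c ≠ z := by rintro rfl; omega
  have hs' : w'.count s = 1 := sim s hs
  have hc2' := cnt c hc2
  have hz2' := cnt z hz2
  obtain ⟨-, -, oc⟩ := h1 n β hG hE w w' hR c s hs hcs
  obtain ⟨-, oz, -⟩ := h1 n β hG hE w w' hR z s hs hzs
  have hcs1' := oc.1 hcs1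
  have hzs1' := oz.1 hzs1
  have le' : nn w' c z ≤ w'.count c := Pool.Agent.MWK.count_pre_le w' c z
  -- the map
  have key3 : RR β (List.replicate (nn w c z) 0 ++ 1 :: (List.replicate (w.count c - nn w c z) 0 ++
      2 :: List.replicate (w.count z - 1) 1)) (List.replicate (nn w' c z) 0 ++
      1 :: (List.replicate (w'.count c - nn w' c z) 0 ++
      2 :: List.replicate (w'.count z - 1) 1)) := by
    have hsub := hR.sub (fun d => if d = c then [0] else if d = z then [1] else
      if d = s then [2] else [])
    rw [st3 _ hcs hzs hcz (by simp) (by simp [hcz.symm]) (by simp [hcs.symm, hzs.symm])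
      (by intro d a1 a2 a3; simp [a1, a2, a3]) hs hzs1 hcs1,
      st3 _ hcs hzs hcz (by simp) (by simp [hcz.symm]) (by simp [hcs.symm, hzs.symm])
      (by intro d a1 a2 a3; simp [a1, a2, a3]) hs' hzs1' hcs1'] at hsub
    exact hsub
  refine ⟨?_, ?_, ?_⟩
  · intro hA hall
    by_contra hcon
    apply hA
    refine (h2 n β hG (nn w c z) 0 (w.count z - 1) (nn w' c z) (w'.count c - nn w' c z)
      (w'.count z - 1) (by omega) (by omega)).1 (by omega) (by omega) ?_
    have e : w.count c - nn w c z = 0 := by omega
    rw [e] at key3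
    exact key3
  · intro h0
    by_contra hcon
    apply hP
    refine (h2 n β hG 0 (w.count c) (w.count z - 1) (nn w' c z) (w'.count c - nn w' c z)
      (w'.count z - 1) (by omega) (by omega)).2.1 (by omega) (by omega) (by omega) ?_
    rw [h0] at key3
    exact key3
  · intro t ht hct hzt hcz1
    have htc : t ≠ c := by rintro rfl; omega
    have htz : t ≠ z := by rintro rfl; omega
    have hts : t ≠ s := by rintro rfl; omega
    have ht' : w'.count t = 1 := sim t ht
    obtain ⟨-, o2, -⟩ := h1 n β hG hE w w' hR c t ht htc.symm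
    obtain ⟨o3, -, -⟩ := h1 n β hG hE w w' hR z t ht htz.symm
    have hct' := o2.1 hct
    have hzt' := o3.1 hzt
    have hsub := hR.sub (fun d => if d = c then [0] else if d = z then [1] else
      if d = s then [2] else if d = t then [3] else [])
    obtain ⟨n1, m1⟩ := st4 (fun d => if d = c then [0] else if d = z then [1] else
      if d = s then [2] else if d = t then [3] else []) (w := w) hcs hzs hcz htc htz hts
      (by simp) (by simp [hcz.symm]) (by simp [hcs.symm, hzs.symm]) (by simp [htc, htz, hts])
      (by intro d a1 a2 a3 a4; simp [a1, a2, a3, a4]) hs hzs1 hcs1 ht hct hzt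
      (List.count_pos_iff.1 (by omega))
    obtain ⟨n2, m2⟩ := st4 (fun d => if d = c then [0] else if d = z then [1] else
      if d = s then [2] else if d = t then [3] else []) (w := w') hcs hzs hcz htc htz hts
      (by simp) (by simp [hcz.symm]) (by simp [hcs.symm, hzs.symm]) (by simp [htc, htz, hts])
      (by intro d a1 a2 a3 a4; simp [a1, a2, a3, a4]) hs' hzs1' hcs1' ht' hct' hzt'
      (List.count_pos_iff.1 (by omega))
    rw [m1, m2, hcz1] at hsub
    by_contra hcon
    apply hP
    exact (h2 n β hG 0 (w.count c - 1) (w.count z - 1) (nn w' c z - 1) (w'.count c - nn w' c z)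
      (w'.count z - 1) (by omega) (by omega)).2.2 (by omega) (by omega) hsub

end Pool.Agent.MWGQ.H37
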